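import Pool.Agent.W730.PN.Kahler

set_option autoImplicit false

open Set Topology Filter Metric
open scoped Manifold ContDiff ComplexConjugate

noncomputable section

namespace Pool.Agent.Results.MP_7ec995_an.HartogsEquicontinuityFails

open Pool.Agent.W730.PN

/-- The unit polydisk `Δ^(n+1) = Δ^n × Δ^1` of `ℂ^n × ℂ` (the norm of `Fin n → ℂ` is the maximum
norm). -/
def polydisk (n : ℕ) : Set ((Fin n → ℂ) × ℂ) := {p | ‖p.1‖ < 1 ∧ ‖p.2‖ < 1}

/-- The Hartogs figure `H_n^1(r) = [Δ^n(1-r) × Δ^1] ∪ [Δ^n × A^1(r,1)]`. -/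
def hartogs (n : ℕ) (r : ℝ) : Set ((Fin n → ℂ) × ℂ) :=
  {p | ‖p.1‖ < 1 - r ∧ ‖p.2‖ < 1} ∪ {p | ‖p.1‖ < 1 ∧ r < ‖p.2‖ ∧ ‖p.2‖ < 1}

/-- The family `F` of maps into `X` is equicontinuous on `U` for the distance `d`. -/
def EquicontinuousFor {Y X : Type} [NormedAddCommGroup Y] (d : X → X → ℝ) (F : Set (Y → X))
    (U : Set Y) : Prop :=
  ∀ p ∈ U, ∀ ε > 0, ∃ δ > 0, ∀ f ∈ F, ∀ z ∈ U, ‖z - p‖ < δ → d (f z) (f p) < ε

section Family

variable {X : Type}

/-- The dilations. -/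
def fam {n : ℕ} (pt : (Fin 3 → ℂ) → X) (i₀ : Fin n) (a : ℂ) (k : ℕ) (p : (Fin n → ℂ) × ℂ) : X :=
  pt ![1, ((k : ℂ) + 1) * (p.1 i₀ - a), ((k : ℂ) + 1) * p.2]

theorem fam_eq {n : ℕ} {pt : (Fin 3 → ℂ) → X}
    (hs : ∀ z, z ≠ 0 → ∀ c : ℂ, c ≠ 0 → pt (c • z) = pt z) (i₀ : Fin n) (a : ℂ) (k : ℕ)
    (p : (Fin n → ℂ) × ℂ) :
    fam pt i₀ a k p = pt ![1 / ((k : ℂ) + 1), p.1 i₀ - a, p.2] := by
  have hk : (k : ℂ) + 1 ≠ 0 := by exact_mod_cast Nat.succ_ne_zero k
  rw [fam, ← hs _ _ _ (one_div_ne_zero hk)]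
  · congr 1
    ext i
    fin_cases i
    · simp
    · simp [hk]
    · simp [hk]
  · intro h
    have := congrFun h 0
    simp at this

variable [MetricSpace X]

theorem equicontinuous_hartogs {n : ℕ} {r : ℝ} (h0 : 0 < r) (h1 : r < 1) (i₀ : Fin n)
    {pt : (Fin 3 → ℂ) → X} (hc : ContinuousOn pt {z | z ≠ 0})
    (hs : ∀ z, z ≠ 0 → ∀ c : ℂ, c ≠ 0 → pt (c • z) = pt z) :
    EquicontinuousFor (X := X) dist (range (fam pt i₀ ((1 - r / 2 : ℝ) : ℂ))) (hartogs n r) := by
  set a : ℂ := ((1 - r / 2 : ℝ) : ℂ) with ha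
  have hna : ‖a‖ = 1 - r / 2 := by
    rw [ha, Complex.norm_real, Real.norm_eq_abs, abs_of_pos (by linarith)]
  set K : Set (Fin 3 → ℂ) := closedBall 0 3 \ ball 0 (r / 2) with hK
  have hKc : IsCompact K := (isCompact_closedBall _ _).diff isOpen_ball
  have hK0 : K ⊆ {z | z ≠ 0} := by
    rintro z ⟨_, hz⟩ rfl
    exact hz (mem_ball_self (by linarith))
  have hu := hKc.uniformContinuousOn_of_continuous (hc.mono hK0)
  rw [Metric.uniformContinuousOn_iff] at hu
  have hmem : ∀ (k : ℕ), ∀ p ∈ hartogs n r, ![1 / ((k : ℂ) + 1), p.1 i₀ - a, p.2] ∈ K := by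
    intro k p hp
    have hk : ‖1 / ((k : ℂ) + 1)‖ ≤ 1 := by
      have : ‖(k : ℂ) + 1‖ = (k : ℝ) + 1 := by
        have : ((k : ℂ) + 1) = (((k : ℝ) + 1 : ℝ) : ℂ) := by push_cast; rfl
        rw [this, Complex.norm_real, Real.norm_eq_abs, abs_of_nonneg (by positivity)]
      rw [norm_div, norm_one, this, div_le_one (by positivity)]
      have : (0 : ℝ) ≤ k := k.cast_nonneg
      linarith
    have hp1 : ‖p.1‖ < 1 := by rcases hp with hp | hp
                               · linarith [hp.1]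
                               · exact hp.1
    have hp2 : ‖p.2‖ < 1 := by rcases hp with hp | hp
                               · exact hp.2
                               · exact hp.2.2
    have hpi : ‖p.1 i₀‖ ≤ ‖p.1‖ := norm_le_pi_norm _ _
    constructor
    · rw [mem_closedBall_zero_iff, pi_norm_le_iff_of_nonneg (by norm_num)]
      intro i
      fin_cases i
      · simp only [Fin.zero_eta, Matrix.cons_val_zero]; linarith
      · simp only [Fin.mk_one, Matrix.cons_val_one, Matrix.cons_val_zero]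
        refine (norm_sub_le _ _).trans ?_
        linarith
      · change ‖p.2‖ ≤ 3
        linarith
    · rw [mem_ball_zero_iff, not_lt]
      rcases hp with hp | hp
      · refine le_trans ?_ (norm_le_pi_norm _ 1)
        simp only [Matrix.cons_val_one, Matrix.cons_val_zero]
        have := norm_sub_norm_le a (p.1 i₀)
        rw [norm_sub_rev] at this
        have := hp.1
        linarith
      · refine le_trans ?_ (norm_le_pi_norm _ 2)
        change r / 2 ≤ ‖p.2‖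
        linarith [hp.2.1]
  intro p hp ε hε
  obtain ⟨δ, hδ, h⟩ := hu ε hε
  refine ⟨δ, hδ, ?_⟩
  rintro f ⟨k, rfl⟩ z hz hzp
  rw [fam_eq hs, fam_eq hs]
  refine h _ (hmem k z hz) _ (hmem k p hp) ?_
  rw [dist_pi_lt_iff hδ]
  have e1 : ‖(z - p).1‖ < δ := lt_of_le_of_lt (norm_fst_le _) hzp
  have e2 : ‖(z - p).2‖ < δ := lt_of_le_of_lt (norm_snd_le _) hzp
  intro i
  fin_cases i
  · simpa using hδ
  · simp only [Fin.mk_one, Matrix.cons_val_one, Matrix.cons_val_zero]
    rw [dist_eq_norm, sub_sub_sub_cancel_right]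
    exact lt_of_le_of_lt (norm_le_pi_norm (z - p).1 i₀) e1
  · change dist z.2 p.2 < δ
    rw [dist_eq_norm]
    exact e2

theorem not_equicontinuous {n : ℕ} {r : ℝ} (h0 : 0 < r) (h1 : r < 1) (i₀ : Fin n)
    {pt : (Fin 3 → ℂ) → X} (hc : ContinuousOn pt {z | z ≠ 0})
    (hs : ∀ z, z ≠ 0 → ∀ c : ℂ, c ≠ 0 → pt (c • z) = pt z) (hne : pt ![0, 0, 1] ≠ pt ![1, 0, 0]) :
    ¬ EquicontinuousFor (X := X) dist (range (fam pt i₀ ((1 - r / 2 : ℝ) : ℂ))) (polydisk n) := by
  intro H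
  set a : ℂ := ((1 - r / 2 : ℝ) : ℂ) with ha
  have hna : ‖a‖ < 1 := by
    rw [ha, Complex.norm_real, Real.norm_eq_abs, abs_of_pos (by linarith)]
    linarith
  have hn : Nonempty (Fin n) := ⟨i₀⟩
  have hp : ((fun _ => a, 0) : (Fin n → ℂ) × ℂ) ∈ polydisk n := by
    refine ⟨?_, by simp⟩
    change ‖fun _ : Fin n => a‖ < 1
    rw [pi_norm_const]
    exact hna
  obtain ⟨δ, hδ, h⟩ := H _ hp (dist (pt ![0, 0, 1]) (pt ![1, 0, 0]) / 2)
    (half_pos (dist_pos.2 hne))
  set t : ℂ := ((min (δ / 2) (1 / 2) : ℝ) : ℂ) with ht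
  have ht0 : 0 < min (δ / 2) (1 / 2) := lt_min (by linarith) (by norm_num)
  have hnt : ‖t‖ = min (δ / 2) (1 / 2) := by
    rw [ht, Complex.norm_real, Real.norm_eq_abs, abs_of_pos ht0]
  have ht' : t ≠ 0 := by
    rw [← norm_pos_iff, hnt]; exact ht0
  have hz : ((fun _ => a, t) : (Fin n → ℂ) × ℂ) ∈ polydisk n := by
    refine ⟨hp.1, ?_⟩
    change ‖t‖ < 1
    rw [hnt]
    exact lt_of_le_of_lt (min_le_right _ _) (by norm_num)
  have hd : ‖((fun _ => a, t) : (Fin n → ℂ) × ℂ) - (fun _ => a, 0)‖ < δ := by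
    rw [Prod.mk_sub_mk, sub_self, sub_zero, Prod.norm_mk, norm_zero, hnt,
      max_eq_right ht0.le]
    exact lt_of_le_of_lt (min_le_left _ _) (by linarith)
  have h3 : ∀ k : ℕ, dist (pt ![1 / ((k : ℂ) + 1), 0, t]) (pt ![1, 0, 0]) <
      dist (pt ![0, 0, 1]) (pt ![1, 0, 0]) / 2 := by
    intro k
    have := h _ ⟨k, rfl⟩ _ hz hd
    have e1 : fam pt i₀ a k ((fun _ => a, t) : (Fin n → ℂ) × ℂ) =
        pt ![1 / ((k : ℂ) + 1), 0, t] := by
      rw [fam_eq hs]; simp
    have e2 : fam pt i₀ a k ((fun _ => a, 0) : (Fin n → ℂ) × ℂ) = pt ![1, 0, 0] := by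
      rw [fam]; simp
    rwa [e1, e2] at this
  have hlim : Tendsto (fun k : ℕ => pt ![1 / ((k : ℂ) + 1), 0, t]) atTop (𝓝 (pt ![0, 0, 1])) := by
    have e : pt ![0, 0, 1] = pt ![0, 0, t] := by
      rw [← hs ![0, 0, 1] (by intro h; simpa using congrFun h 2) t ht']
      congr 1
      ext i
      fin_cases i <;> simp
    rw [e]
    have hca : ContinuousAt pt ![0, 0, t] := by
      refine hc.continuousAt (IsOpen.mem_nhds isOpen_ne ?_)
      intro h
      exact ht' (by simpa using congrFun h 2)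
    refine hca.tendsto.comp ?_
    rw [tendsto_pi_nhds]
    intro i
    fin_cases i
    · simpa using tendsto_one_div_add_atTop_nhds_zero_nat (𝕜 := ℂ)
    · simp
    · simp
  have h4 := le_of_tendsto (hlim.dist tendsto_const_nhds) (Eventually.of_forall fun k => (h3 k).le)
  have := dist_pos.2 hne
  linarith

end Family

/-- The point with given homogeneous coordinates. -/
def ptP (z : Fin 3 → ℂ) : Plane :=
  if h : z ≠ 0 then point ⟨z, h⟩ else point ⟨![1, 0, 0], fun h => by simpa using congrFun h 0⟩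

theorem ptP_of {z : Fin 3 → ℂ} (h : z ≠ 0) : ptP z = point ⟨z, h⟩ := by
  rw [ptP, dif_pos h]

theorem continuousOn_ptP : ContinuousOn ptP {z | z ≠ 0} := by
  rw [continuousOn_iff_continuous_domRestrict]
  have : ({z | z ≠ 0} : Set (Fin 3 → ℂ)).domRestrict ptP = point := by
    funext z
    exact ptP_of z.2
  rw [this]
  exact continuous_point

theorem ptP_smul (z : Fin 3 → ℂ) (hz : z ≠ 0) (c : ℂ) (hc : c ≠ 0) : ptP (c • z) = ptP z := by
  rw [ptP_of hz, ptP_of (smul_ne_zero hc hz)]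
  exact point_eq_of hc fun i => by simp

theorem ptP_ne : ptP ![0, 0, 1] ≠ ptP ![1, 0, 0] := by
  intro h
  have h1 : (![0, 0, 1] : Fin 3 → ℂ) ≠ 0 := fun h => by simpa using congrFun h 2
  have h2 : (![1, 0, 0] : Fin 3 → ℂ) ≠ 0 := fun h => by simpa using congrFun h 0
  have h3 := congrArg (fun P => ent P 0 0) h
  simp only [ptP_of h1, ptP_of h2, ent_point, nrm, Fin.sum_univ_three] at h3
  simp at h3

theorem ptP_aff {n : ℕ} (i₀ : Fin n) (a : ℂ) (k : ℕ) :
    fam ptP i₀ a k = fun p => aff 0 ![((k : ℂ) + 1) * (p.1 i₀ - a), ((k : ℂ) + 1) * p.2] := by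
  funext p
  have h : (![1, ((k : ℂ) + 1) * (p.1 i₀ - a), ((k : ℂ) + 1) * p.2] : Fin 3 → ℂ) ≠ 0 :=
    fun h => by simpa using congrFun h 0
  rw [fam, aff, ptP_of h]
  congr 1
  refine Subtype.ext ?_
  ext i
  fin_cases i
  · exact (lift_self 0 ![((k : ℂ) + 1) * (p.1 i₀ - a), ((k : ℂ) + 1) * p.2]).symm
  · exact (lift_succAbove 0 ![((k : ℂ) + 1) * (p.1 i₀ - a), ((k : ℂ) + 1) * p.2] 0).symm
  · exact (lift_succAbove 0 ![((k : ℂ) + 1) * (p.1 i₀ - a), ((k : ℂ) + 1) * p.2] 1).symm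

/-- **Equicontinuity does not propagate from the Hartogs figure to the polydisk.** For all `n ≥ 1`
and `0 < r < 1` there are a compact connected Kähler manifold `X` (the complex projective plane)
and a family `F` of holomorphic maps from the polydisk `Δ^(n+1)` to `X` which is equicontinuous on
the Hartogs figure `H_n^1(r)` but not on `Δ^(n+1)`, for every distance which induces the topology
of `X` (in particular for the distance of every Hermitian metric). -/
theorem result (n : ℕ) (hn : 1 ≤ n) (r : ℝ) (h0 : 0 < r) (h1 : r < 1) :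
    ∃ (X : Type) (_ : TopologicalSpace X) (_ : T2Space X) (_ : SecondCountableTopology X)
      (_ : CompactSpace X) (_ : ConnectedSpace X) (_ : ChartedSpace (Fin 2 → ℂ) X)
      (_ : IsManifold 𝓘(ℂ, Fin 2 → ℂ) ω X),
      IsKahler (Fin 2 → ℂ) X ∧
      ∃ F : Set ((Fin n → ℂ) × ℂ → X),
        (∀ f ∈ F, ContMDiffOn 𝓘(ℂ, (Fin n → ℂ) × ℂ) 𝓘(ℂ, Fin 2 → ℂ) ω f (polydisk n)) ∧
        ∀ d : MetricSpace X, d.toUniformSpace.toTopologicalSpace = ‹TopologicalSpace X› →
          EquicontinuousFor d.dist F (hartogs n r) ∧ ¬ EquicontinuousFor d.dist F (polydisk n) := by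
  refine ⟨Plane, inferInstance, inferInstance, inferInstance, inferInstance, inferInstance,
    inferInstance, inferInstance, plane_isKahler,
    range (fam ptP (⟨0, hn⟩ : Fin n) ((1 - r / 2 : ℝ) : ℂ)), ?_, ?_⟩
  · rintro f ⟨k, rfl⟩
    rw [ptP_aff]
    refine ContMDiff.contMDiffOn ((contMDiff_aff 0).comp ?_)
    rw [contMDiff_iff_contDiff]
    refine contDiff_pi.2 fun i => ?_
    fin_cases i
    · simp only [Fin.zero_eta, Matrix.cons_val_zero]
      exact contDiff_const.mul (((contDiff_apply ℂ ℂ _).comp contDiff_fst).sub contDiff_const)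
    · simp only [Fin.mk_one, Matrix.cons_val_one, Matrix.cons_val_zero]
      exact contDiff_const.mul contDiff_snd
  · intro d hd
    have hc : @ContinuousOn _ _ _ d.toUniformSpace.toTopologicalSpace ptP {z | z ≠ 0} := by
      rw [hd]
      exact continuousOn_ptP
    exact ⟨equicontinuous_hartogs h0 h1 _ hc ptP_smul,
      not_equicontinuous h0 h1 _ hc ptP_smul ptP_ne⟩

end Pool.Agent.Results.MP_7ec995_an.HartogsEquicontinuityFails
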